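import Pool.Agent.Helper80.HG.StL

/-!
Project HG (MP_1bacb5_al), part L, module AL: transcendence degree of a finitely generated field.
-/

set_option autoImplicit false

namespace Pool.Agent.Helper39.HG

open Pool.Agent.Helper80.HG Filter Topology

theorem hAL : StAL := by
  intro F _ _ S N g hS hg
  by_contra hcon
  push Not at hcon
  have hind : AlgebraicIndependent ℝ g := by
    rw [algebraicIndependent_iff]
    intro P hP
    by_contra hne
    exact hcon P hne hP
  have hinj : Function.Injective g := hind.injective
  have hrange : (AlgebraicIndependent.matroid ℝ F).Indep (Set.range g) := by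
    rw [AlgebraicIndependent.matroid_indep_iff]
    exact hind.to_subtype_range
  have hcl : Set.range g ⊆ (AlgebraicIndependent.matroid ℝ F).closure (S : Set F) := by
    rw [AlgebraicIndependent.matroid_closure_eq]
    rintro _ ⟨i, rfl⟩
    rw [SetLike.mem_coe, Subalgebra.mem_algebraicClosure]
    obtain ⟨r, hr, s, hs, h⟩ := IntermediateField.mem_adjoin_iff_div.1 (hg i)
    rw [h, div_eq_mul_inv]
    have h1 : IsAlgebraic (Algebra.adjoin ℝ (S : Set F)) r :=
      isAlgebraic_algebraMap (⟨r, hr⟩ : Algebra.adjoin ℝ (S : Set F))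
    have h2 : IsAlgebraic (Algebra.adjoin ℝ (S : Set F)) s :=
      isAlgebraic_algebraMap (⟨s, hs⟩ : Algebra.adjoin ℝ (S : Set F))
    exact h1.mul h2.inv
  have h1 := hrange.encard_le_eRk_of_subset hcl
  rw [Matroid.eRk_closure_eq] at h1
  have h2 := h1.trans (Matroid.eRk_le_encard _ _)
  rw [Set.encard_coe_eq_coe_finsetCard, ← Set.image_univ, hinj.encard_image, Set.encard_univ] at h2
  simp only [ENat.card_eq_coe_fintype_card, Fintype.card_fin] at h2
  have h3 : N + 1 ≤ S.card := by exact_mod_cast h2
  omega

end Pool.Agent.Helper39.HG
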